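import Pool.Agent.Helper86.NB.St

/-! Project NB, module QPW: the quotient map and convolutions. -/

set_option autoImplicit false

namespace Pool.Agent.Helper40.NB

open Filter Topology Pool.Agent.Helper86.NB Pool.Agent.Helper86.ML Pool.Agent.Helper67.Cour

variable {G : Type} [Group G] (N : Subgroup G) [N.Normal]

/-- the translation of a fibre -/
def fibShift (g : G) (q : G ⧸ N) : Fib N q ≃ Fib N ((g : G ⧸ N)⁻¹ * q) where
  toFun x := ⟨g⁻¹ * x.1, by rw [QuotientGroup.mk_mul, QuotientGroup.mk_inv, x.2]⟩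
  invFun x := ⟨g * x.1, by rw [QuotientGroup.mk_mul, x.2, mul_inv_cancel_left]⟩
  left_inv x := by
    apply Subtype.ext
    exact mul_inv_cancel_left g x.1
  right_inv x := by
    apply Subtype.ext
    exact inv_mul_cancel_left g x.1

theorem tsum_shift (p : G → ℝ) (g : G) (q : G ⧸ N) :
    ∑' x : Fib N q, p (g⁻¹ * x.1) = quot N p ((g : G ⧸ N)⁻¹ * q) :=
  (fibShift N g q).tsum_eq fun y : Fib N ((g : G ⧸ N)⁻¹ * q) => p y.1

theorem quot_tr (p : G → ℝ) (g : G) : quot N (tr g p) = tr (g : G ⧸ N) (quot N p) := by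
  funext q
  exact tsum_shift N p g q

omit [N.Normal] in
theorem quot_prob {p : G → ℝ} (hp : Prob p) : Prob (quot N p) := by
  refine ⟨quot_nonneg N hp.nonneg, ?_⟩
  have h1 := summable_fib N hp.summable
  have h2 := tsum_fib N hp.summable
  rw [hp.tsum_eq] at h2
  rw [h2]
  exact h1.hasSum

theorem quot_cv {p q : G → ℝ} (hp : Prob p) (hq : Prob q) :
    quot N (cv p q) = cv (quot N p) (quot N q) := by
  funext r
  have hQ := quot_prob N hq
  have hs : Summable (Function.uncurry fun (x : Fib N r) (s : G) => p s * q (s⁻¹ * x.1)) := by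
    have h := summable_cv2 hp.summable hq.summable
    have hinj : Function.Injective fun z : Fib N r × G => ((z.2, z.1.1) : G × G) := by
      intro z w hzw
      have h1 := congrArg Prod.fst hzw
      have h2 := congrArg Prod.snd hzw
      exact Prod.ext (Subtype.ext h2) h1
    exact h.comp_injective hinj
  have hb : Summable fun s : G => p s * quot N q ((s : G ⧸ N)⁻¹ * r) := by
    refine Summable.of_nonneg_of_le (fun s => mul_nonneg (hp.nonneg s) (hQ.nonneg _))
      (fun s => ?_) hp.summable
    exact mul_le_of_le_one_right (hp.nonneg s) (hQ.le_one _)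
  calc quot N (cv p q) r = ∑' (x : Fib N r) (s : G), p s * q (s⁻¹ * x.1) := rfl
    _ = ∑' (s : G) (x : Fib N r), p s * q (s⁻¹ * x.1) := hs.tsum_comm.symm
    _ = ∑' s : G, p s * quot N q ((s : G ⧸ N)⁻¹ * r) := by
      refine tsum_congr fun s => ?_
      rw [tsum_mul_left, tsum_shift N q s r]
    _ = ∑' t : G ⧸ N, ∑' s : Fib N t, p s.1 * quot N q ((s.1 : G ⧸ N)⁻¹ * r) := tsum_fib N hb
    _ = ∑' t : G ⧸ N, quot N p t * quot N q (t⁻¹ * r) := by
      refine tsum_congr fun t => ?_
      have h1 : (fun s : Fib N t => p s.1 * quot N q ((s.1 : G ⧸ N)⁻¹ * r)) =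
          fun s : Fib N t => p s.1 * quot N q (t⁻¹ * r) := by
        funext s
        rw [s.2]
      rw [h1, tsum_mul_right]
      rfl
    _ = cv (quot N p) (quot N q) r := rfl

theorem quot_dl : quot N (dl G) = dl (G ⧸ N) := by
  classical
  funext q
  by_cases hq : q = 1
  · subst hq
    rw [dl_one]
    change ∑' x : Fib N (1 : G ⧸ N), dl G x.1 = 1
    rw [tsum_eq_single (⟨1, rfl⟩ : Fib N (1 : G ⧸ N))]
    · exact dl_one
    · intro x hx
      have : x.1 ≠ 1 := fun h => hx (Subtype.ext h)
      simp [dl, this]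
  · have h1 : dl (G ⧸ N) q = 0 := by simp [dl, hq]
    rw [h1]
    change ∑' x : Fib N q, dl G x.1 = 0
    have h2 : ∀ x : Fib N q, dl G x.1 = 0 := by
      intro x
      have : x.1 ≠ 1 := by
        intro h
        apply hq
        rw [← x.2, h]
        rfl
      simp [dl, this]
    simp only [h2, tsum_zero]

theorem quot_lazy {p : G → ℝ} (hp : Prob p) : quot N (lazy p) = lazy (quot N p) := by
  funext q
  have h1 : Summable fun x : Fib N q => p x.1 := hp.summable.subtype _
  have h2 : Summable fun x : Fib N q => dl G x.1 := (dl_prob (G := G)).summable.subtype _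
  have h3 : quot N (dl G) q = dl (G ⧸ N) q := by rw [quot_dl]
  calc quot N (lazy p) q = ∑' x : Fib N q, (p x.1 + dl G x.1) / 2 := rfl
    _ = (∑' x : Fib N q, (p x.1 + dl G x.1)) / 2 := tsum_div_const
    _ = ((∑' x : Fib N q, p x.1) + ∑' x : Fib N q, dl G x.1) / 2 := by rw [h1.tsum_add h2]
    _ = (quot N p q + quot N (dl G) q) / 2 := rfl
    _ = (quot N p q + dl (G ⧸ N) q) / 2 := by rw [h3]
    _ = lazy (quot N p) q := rfl

theorem quot_pw {p : G → ℝ} (hp : Prob p) (n : ℕ) : quot N (pw p n) = pw (quot N p) n := by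
  induction n with
  | zero => exact quot_dl N
  | succ n ih => rw [pw_succ, pw_succ, quot_cv N hp (pw_prob hp n), ih]

theorem hQPW : StQPW := by
  intro G _ N _
  exact ⟨fun p hp => quot_prob N hp, fun p q hp hq => quot_cv N hp hq, fun p g => quot_tr N p g,
    fun p hp => quot_lazy N hp, fun p hp n => quot_pw N hp n⟩

end Pool.Agent.Helper40.NB
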